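import Pool.Agent.Helper91.GU.StE

/-!
# Project GU, module E2a
-/

set_option autoImplicit false

namespace Pool.Agent.Helper4.GU

open Polynomial Pool.Agent.Helper91.GU

universe u

private lemma e2a_aux {B : Type u} [CommRing B] (x c : B) (k : ℕ) (h : c * x ^ k = 1) :
    (C c : B[X]) * (C x * X) ^ k = X ^ k := by
  rw [mul_pow, ← C_pow, ← mul_assoc, ← C_mul, h, C_1, one_mul]

theorem hE2a (hE0 : StE0.{u}) : StE2a.{u} := by
  intro L _ I k₀ a hYK k hk hk1 f hdvd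
  obtain ⟨-, -, -, -, hker, -, hlift⟩ := hE0 L I k₀ a hYK
  have hone : (Ideal.Quotient.mk I) (C (a k)) * (Ideal.Quotient.mk I X) ^ k = 1 := by
    have h1 := Ideal.Quotient.eq_zero_iff_mem.2 (hYK k hk)
    rw [map_sub, map_one, sub_eq_zero] at h1
    rw [← map_pow, ← map_mul]
    exact h1.symm
  have hC : ∀ r : L, Phi I (C r) = C (Ideal.Quotient.mk I (C r)) := by
    intro r
    simp [Phi]
  have hX : Phi I X = C (Ideal.Quotient.mk I X) * X := by
    simp [Phi]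
  have hu : Phi I (C (a k) * X ^ k) = X ^ k := by
    rw [map_mul, map_pow, hC, hX]
    exact e2a_aux _ _ _ hone
  obtain ⟨P, hP⟩ := hdvd
  obtain ⟨M₀, hM₀⟩ := hlift P
  obtain ⟨f', hf'⟩ := hM₀ (k * M₀) (Nat.le_mul_of_pos_left M₀ (by omega))
  obtain ⟨q, hq⟩ : (1 - C (a k) * X ^ k) ∣ 1 - (C (a k) * X ^ k) ^ M₀ := by
    simpa using sub_dvd_pow_sub_pow (1 : L[X]) (C (a k) * X ^ k) M₀
  refine ⟨X ^ (k * M₀) * f' + q * f, ?_⟩
  rw [← hker]
  have hre : f - (X ^ (k * M₀) * f' + q * f) * (1 - C (a k) * X ^ k) =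
      (C (a k) * X ^ k) ^ M₀ * f - (1 - C (a k) * X ^ k) * (X ^ (k * M₀) * f') := by
    linear_combination f * hq
  rw [hre, map_sub, map_mul, map_mul, hf', map_pow, hu, hP, map_sub, map_one, hu, ← pow_mul]
  ring

end Pool.Agent.Helper4.GU
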