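import Pool.Agent.Helper91.GU.StH

/-!
# Project GU, module H1b
-/

set_option autoImplicit false

namespace Pool.Agent.Helper4.GU

open Polynomial Pool.Agent.Helper91.GU

universe u

private lemma h1b_step (hH1a : StH1a.{u}) (k : ℕ) :
    ∀ (D D' : Type u) [CommRing D] [IsDomain D] [IsNoetherianRing D] [CommRing D']
      [IsDomain D'] [Algebra D D'], Function.Injective (algebraMap D D') →
    ∀ S : Finset D', S.card ≤ k → Algebra.adjoin D (S : Set D') = ⊤ →
    ∀ n : ℕ, Algebra.trdeg D D' ≤ n → ringKrullDim D' ≤ ringKrullDim D + n := by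
  classical
  induction k with
  | zero =>
    intro D D' _ _ _ _ _ _ hinj S hS htop n hn
    have hS0 : S = ∅ := Finset.card_eq_zero.1 (Nat.le_zero.1 hS)
    subst hS0
    have hsurj : Function.Surjective (algebraMap D D') := by
      rw [Finset.coe_empty, Algebra.adjoin_empty] at htop
      exact Algebra.surjective_algebraMap_iff.2 htop.symm
    calc ringKrullDim D' ≤ ringKrullDim D := ringKrullDim_le_of_surjective _ hsurj
      _ ≤ ringKrullDim D + n := le_add_of_nonneg_right (by positivity)
  | succ k ih =>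
    intro D D' _ _ _ _ _ _ hinj S hS htop n hn
    rcases S.eq_empty_or_nonempty with hS0 | ⟨a, haS⟩
    · exact ih D D' hinj S (by rw [hS0]; simp) htop n hn
    set S' : Finset D' := S.erase a with hS'
    have hcard : S'.card ≤ k := by
      rw [hS', Finset.card_erase_of_mem haS]; omega
    have hSS : (S : Set D') = {a} ∪ (S' : Set D') := by
      rw [hS', Finset.coe_erase, Set.union_sdiff_self, Set.singleton_union,
        Set.insert_eq_of_mem (Finset.mem_coe.2 haS)]
    let D₁ : Subalgebra D D' := Algebra.adjoin D {a}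
    have hfg : D₁.FG := ⟨{a}, by simp [D₁]⟩
    have : Algebra.FiniteType D D₁ := (Subalgebra.fg_iff_finiteType D₁).1 hfg
    have : IsNoetherianRing D₁ := Algebra.FiniteType.isNoetherianRing D D₁
    have hinj1 : Function.Injective (algebraMap D₁ D') := Subtype.val_injective
    have hinj0 : Function.Injective (algebraMap D D₁) := by
      intro x y hxy
      apply hinj
      have := congrArg (algebraMap D₁ D') hxy
      rwa [← IsScalarTower.algebraMap_apply, ← IsScalarTower.algebraMap_apply] at this
    have : FaithfulSMul D D₁ := (faithfulSMul_iff_algebraMap_injective D D₁).2 hinj0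
    have : FaithfulSMul D₁ D' := (faithfulSMul_iff_algebraMap_injective D₁ D').2 hinj1
    have htop1 : Algebra.adjoin D₁ (S' : Set D') = ⊤ := by
      rw [hSS, Algebra.adjoin_union_eq_adjoin_adjoin] at htop
      apply Subalgebra.restrictScalars_injective D
      rw [Subalgebra.restrictScalars_top]
      exact htop
    have haD : a ∈ D₁ := Algebra.self_mem_adjoin_singleton D a
    have htopa : Algebra.adjoin D {(⟨a, haD⟩ : D₁)} = ⊤ := by
      have h1 : (Subtype.val ⁻¹' {a} : Set D₁) = {(⟨a, haD⟩ : D₁)} := by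
        ext x
        simp [Subtype.ext_iff]
      rw [← h1]
      exact Algebra.adjoin_adjoin_coe_preimage
    obtain ⟨hdim1, hdim0⟩ := hH1a D D₁ ⟨a, haD⟩ hinj0 htopa
    have hadd : Algebra.trdeg D D₁ + Algebra.trdeg D₁ D' = Algebra.trdeg D D' :=
      trdeg_add_eq D D₁
    rw [← hadd] at hn
    by_cases halg : IsAlgebraic D (⟨a, haD⟩ : D₁)
    · have h1 : Algebra.trdeg D₁ D' ≤ n := le_trans le_add_self hn
      calc ringKrullDim D' ≤ ringKrullDim D₁ + n := ih D₁ D' hinj1 S' hcard htop1 n h1
        _ ≤ ringKrullDim D + n := by gcongr; exact hdim0 halg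
    · have : Algebra.Transcendental D D₁ := ⟨⟨a, haD⟩, halg⟩
      have h0 : 1 ≤ Algebra.trdeg D D₁ := Cardinal.one_le_iff_pos.2 (trdeg_pos D D₁)
      have h2 : 1 + Algebra.trdeg D₁ D' ≤ n := le_trans (add_le_add_left h0 _) hn
      obtain ⟨t, ht⟩ : ∃ t : ℕ, Algebra.trdeg D₁ D' = t := by
        apply Cardinal.lt_aleph0.1
        exact lt_of_le_of_lt (le_trans le_add_self h2) Cardinal.natCast_lt_aleph0
      rw [ht] at h2
      have h3 : 1 + t ≤ n := by exact_mod_cast h2
      have h4 : ringKrullDim D' ≤ ringKrullDim D₁ + t :=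
        ih D₁ D' hinj1 S' hcard htop1 t ht.le
      calc ringKrullDim D' ≤ ringKrullDim D₁ + t := h4
        _ ≤ (ringKrullDim D + 1) + t := by gcongr
        _ = ringKrullDim D + ((1 + t : ℕ) : WithBot ℕ∞) := by push_cast; rw [add_assoc]
        _ ≤ ringKrullDim D + n := by gcongr

theorem hH1b (hH1a : StH1a.{u}) : StH1b.{u} := by
  intro D D' _ _ _ _ _ _ hinj hft n hn
  obtain ⟨S, hS⟩ := hft.out
  exact h1b_step hH1a S.card D D' hinj S le_rfl hS n hn

end Pool.Agent.Helper4.GU
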