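import Pool.Agent.Helper96.GU.St

/-!
# Project GU: module MIN (a minimal initial complex)
-/

set_option autoImplicit false

namespace Pool.Agent.Helper4.GU

open Pool.Agent.Helper96.UT hiding StTOP TopV TopE tht Bd VC EC
open Pool.Agent.Helper96.GU

theorem tMIN : StEXI → StRDI → StSNG → StMIN := by
  intro hEXI hRDI hSNG α Z η L hs hG w hw hwn
  obtain ⟨Ω, inst, v, C₀, hI₀⟩ := hEXI α Z L hs w hwn
  have key : ∀ (N : ℕ) (E : Set (Ω × α)) (C : Finset Ω), C.card = N → Ini Z L w v E C →
      ∃ (E : Set (Ω × α)) (C : Finset Ω),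
        Ini Z L w v E C ∧ ((∃ k : ℤ, Sg Z C v k) ∨ C.card ≤ (Bd Z C η.η).card) := by
    intro N
    induction N using Nat.strong_induction_on with
    | _ N ih =>
      intro E C hN hI
      by_cases hall : ∀ u ∈ C, ∃ i : ℕ, i < Z.n ∧ (u, i) ∈ Bd Z C η.η
      · refine ⟨E, C, hI, Or.inr ?_⟩
        classical
        calc C.card ≤ ((Bd Z C η.η).image Prod.fst).card := by
              refine Finset.card_le_card fun u hu => ?_
              obtain ⟨i, _, hi⟩ := hall u hu
              exact Finset.mem_image.2 ⟨(u, i), hi, rfl⟩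
          _ ≤ _ := Finset.card_image_le
      · push Not at hall
        obtain ⟨u, hu, hui⟩ := hall
        obtain ⟨k, hk⟩ := hSNG α Z η Ω C hI.cpx.fix u hu (fun i hi => hui i hi)
        by_cases huv : u = v
        · subst huv
          exact ⟨E, C, hI, Or.inl ⟨k, hk⟩⟩
        · obtain ⟨E', C', hc, hI'⟩ := hRDI α Z L hG w hw Ω v E C hI u hu huv k hk
          exact ih C'.card (hN ▸ hc) E' C' rfl hI'
  obtain ⟨E, C, h1, h2⟩ := key _ _ _ rfl hI₀
  exact ⟨Ω, inst, v, E, C, h1, h2⟩

end Pool.Agent.Helper4.GU
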